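import Pool.Agent.H7.KC.Stmts
import Pool.Agent.H84.JB.ZSM
import Pool.Agent.H23.IA.ZST

/-!
# Board `kc15`, row ZSJ: a vertex with a moderate number of missing pairs owes nothing

After the rows ZSM of the board `jb14` (helper84) and ZST of the board `ia13` (helper23).
-/

set_option autoImplicit false

open Finset

namespace Pool.KC7

open Pool.Agent.H23.KT Pool.Agent.H46.KW Pool.KQ Pool.GT7 Pool.GU7 Pool.HZ7 Pool.IA7

/-- the second factorial moment is small -/
theorem zsj_moment {V : Type} [DecidableEq V] (G : SimpleGraph V) (p a : ℕ) (e f : ℝ)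
    (P : Fin (p + 3) → Finset V) (he0 : 0 ≤ e) (he : e ≤ 1 / (64 * ((p : ℝ) + 3) ^ 2))
    (hf : f ≤ 1 / (64 * ((p : ℝ) + 3) ^ 2)) (ha : 1 ≤ a)
    (lo : ∀ i, (1 - e) * a ≤ ((P i).card : ℝ)) (hi : ∀ i, ((P i).card : ℝ) ≤ (1 + e) * a)
    (mis : ∀ i, ∀ u ∈ P i, ∀ k, k ≠ i → ((non G (P k) u).card : ℝ) ≤ f * a)
    (z : V) (i : Fin (p + 3)) (hz : ∀ k, k ≠ i → ((non G (P k) z).card : ℝ) ≤ e1 p * a)
    (J : (Fin (p + 3) → V) → ℝ)
    (hJ : ∀ g, J g = ∑ k ∈ univ.erase i, (if g k ∈ non G (P k) z then (1 : ℝ) else 0)) :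
    4 * ((p : ℝ) + 3) ^ 2 * ∑ g ∈ trv G P, (J g * J g - J g) ≤ ∑ g ∈ trv G P, J g := by
  classical
  have he1p : 0 ≤ e1 p := by
    unfold e1
    positivity
  have haR : (1 : ℝ) ≤ a := by exact_mod_cast ha
  have haR0 : (0 : ℝ) < a := by linarith
  set c : ℝ := (p : ℝ) + 3 with hc
  have hp0 : (0 : ℝ) ≤ p := Nat.cast_nonneg p
  have hc3 : 3 ≤ c := by
    rw [hc]
    linarith
  have hcc : 0 < 64 * c ^ 2 := by positivity
  have he64 : c ^ 2 * e ≤ 1 / 64 := by
    have h1 := mul_le_mul_of_nonneg_left he (sq_nonneg c)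
    have h2 : c ^ 2 * (1 / (64 * c ^ 2)) = 1 / 64 := by field_simp
    linarith
  have hce : c * e ≤ 1 / 64 := by nlinarith
  have he1 : e ≤ 1 / 64 := by nlinarith
  set χ : (Fin (p + 3) → V) → Fin (p + 3) → ℝ :=
    fun g k => if g k ∈ non G (P k) z then (1 : ℝ) else 0 with hχ
  have hχ0 : ∀ g k, 0 ≤ χ g k := by
    intro g k
    rw [hχ]
    simp only
    split_ifs <;> norm_num
  have hχs : ∀ g k, χ g k * χ g k = χ g k := by
    intro g k
    rw [hχ]
    simp only
    split_ifs <;> norm_num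
  have hJ' : ∀ g, J g = ∑ k ∈ univ.erase i, χ g k := hJ
  -- the expansion
  have hexp : ∀ g, J g * J g - J g =
      ∑ k ∈ univ.erase i, ∑ l ∈ (univ.erase i).erase k, χ g k * χ g l := by
    intro g
    rw [hJ' g, Finset.sum_mul_sum, ← Finset.sum_sub_distrib]
    refine Finset.sum_congr rfl fun k hk => ?_
    rw [← Finset.add_sum_erase _ _ hk, hχs]
    ring
  rw [Finset.sum_congr rfl fun g _ => hexp g, Finset.sum_congr rfl fun g _ => hJ' g,
    Finset.sum_comm, Finset.sum_comm (s := trv G P) (t := univ.erase i) (f := fun g k => χ g k),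
    Finset.mul_sum]
  refine Finset.sum_le_sum fun k hk => ?_
  have hki : k ≠ i := ne_of_mem_erase hk
  rw [Finset.sum_comm]
  -- lower bound for the first moment
  have hlow : ((non G (P k) z).card : ℝ) * ((a : ℝ) ^ (p + 2) / 2) ≤ ∑ g ∈ trv G P, χ g k := by
    have h1 : ∑ g ∈ trv G P, χ g k =
        ∑ x ∈ non G (P k) z, (((trv G P).filter (fun g => g k = x)).card : ℝ) := by
      rw [hχ]
      simp only
      rw [← Finset.sum_filter, Finset.sum_const, nsmul_eq_mul, mul_one]
      have h2 : (trv G P).filter (fun g => g k ∈ non G (P k) z) =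
          (non G (P k) z).biUnion (fun x => (trv G P).filter (fun g => g k = x)) := by
        ext g
        simp only [mem_filter, mem_biUnion]
        constructor
        · rintro ⟨h, h'⟩
          exact ⟨g k, h', h, rfl⟩
        · rintro ⟨x, hx, h, rfl⟩
          exact ⟨h, hx⟩
      rw [h2, Finset.card_biUnion]
      · push_cast
        rfl
      · intro x _ y _ hxy
        change Disjoint _ _
        rw [Finset.disjoint_left]
        intro g hg hg'
        rw [mem_filter] at hg hg'
        exact hxy (hg.2.symm.trans hg'.2)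
    rw [h1]
    have h3 : ∀ x ∈ non G (P k) z, (a : ℝ) ^ (p + 2) / 2 ≤
        (((trv G P).filter (fun g => g k = x)).card : ℝ) := by
      intro x hx
      have hxk : x ∈ P k := by
        unfold non at hx
        exact (mem_filter.1 hx).1
      exact Pool.JB7.ZSM84.through G p a e f P he0 he hf ha lo hi mis k x hxk
    have h4 := Finset.card_nsmul_le_sum _ _ _ h3
    rw [nsmul_eq_mul] at h4
    exact h4
  -- upper bound for the pairs
  have hpair : ∀ l ∈ (univ.erase i).erase k, ∑ g ∈ trv G P, χ g k * χ g l ≤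
      ((non G (P k) z).card : ℝ) * (e1 p * a) * (2 * (a : ℝ) ^ (p + 1)) := by
    intro l hl
    have hlk : l ≠ k := ne_of_mem_erase hl
    have hli : l ≠ i := ne_of_mem_erase (mem_of_mem_erase hl)
    set Q : Fin (p + 3) → Finset V :=
      fun j => if j = k then non G (P k) z else if j = l then non G (P l) z else P j with hQ
    have h1 : ∑ g ∈ trv G P, χ g k * χ g l ≤ ((Fintype.piFinset Q).card : ℝ) := by
      have h2 : ∀ g, χ g k * χ g l =
          if g k ∈ non G (P k) z ∧ g l ∈ non G (P l) z then (1 : ℝ) else 0 := by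
        intro g
        rw [hχ]
        simp only
        by_cases h3 : g k ∈ non G (P k) z <;> by_cases h4 : g l ∈ non G (P l) z <;> simp [h3, h4]
      rw [Finset.sum_congr rfl fun g _ => h2 g, ← Finset.sum_filter, Finset.sum_const,
        nsmul_eq_mul, mul_one]
      refine Nat.cast_le.2 (Finset.card_le_card fun g hg => ?_)
      rw [mem_filter] at hg
      rw [Fintype.mem_piFinset]
      intro j
      rw [hQ]
      simp only
      have h5 : g j ∈ P j := by
        have := hg.1
        unfold trv at this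
        rw [mem_filter, Fintype.mem_piFinset] at this
        exact this.1 j
      split_ifs with h6 h7
      · rw [h6]
        exact hg.2.1
      · rw [h7]
        exact hg.2.2
      · exact h5
    refine h1.trans ?_
    rw [Fintype.card_piFinset]
    push_cast
    have h2 := Pool.JB7.ZSM84.prod_le_two (fun j => ((Q j).card : ℝ)) ((1 + e) * (a : ℝ))
      (fun j => Nat.cast_nonneg _) k l hlk (fun j hjk hjl => by
        rw [hQ]
        simp only [if_neg hjk, if_neg hjl]
        exact hi j)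
    have h3 : Q k = non G (P k) z := by
      rw [hQ]
      simp
    have h4 : Q l = non G (P l) z := by
      rw [hQ]
      simp [hlk]
    simp only [h3, h4] at h2
    refine h2.trans ?_
    have h5 : p + 3 - 2 = p + 1 := by omega
    rw [h5]
    refine mul_le_mul ?_ ?_ (by positivity)
      (mul_nonneg (Nat.cast_nonneg _) (mul_nonneg he1p haR0.le))
    · exact mul_le_mul_of_nonneg_left (hz l hli) (Nat.cast_nonneg _)
    · rw [mul_pow]
      refine mul_le_mul_of_nonneg_right ?_ (by positivity)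
      refine Pool.JB7.ZSM84.pow_two e he0 (by linarith) (p + 1) ?_
      push_cast
      rw [hc] at hce
      nlinarith
  have hsum := Finset.sum_le_card_nsmul _ _ _ hpair
  refine (mul_le_mul_of_nonneg_left hsum (by positivity)).trans (le_trans ?_ hlow)
  rw [nsmul_eq_mul]
  have h6 : (((univ.erase i).erase k).card : ℝ) ≤ c := by
    have h7 : ((univ.erase i).erase k).card ≤ (univ : Finset (Fin (p + 3))).card :=
      Finset.card_le_card ((Finset.erase_subset _ _).trans (Finset.erase_subset _ _))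
    rw [Finset.card_univ, Fintype.card_fin] at h7
    rw [hc]
    exact_mod_cast h7
  have hn0 : (0 : ℝ) ≤ ((non G (P k) z).card : ℝ) := Nat.cast_nonneg _
  have hX0 : 0 ≤ ((non G (P k) z).card : ℝ) * (e1 p * a) * (2 * (a : ℝ) ^ (p + 1)) :=
    mul_nonneg (mul_nonneg hn0 (mul_nonneg he1p haR0.le)) (by positivity)
  refine (mul_le_mul_of_nonneg_left (mul_le_mul_of_nonneg_right h6 hX0)
    (by positivity)).trans (le_of_eq ?_)
  have h9 : 8 * c ^ 3 * e1 p = 1 / 2 := by
    unfold e1
    rw [← hc]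
    have hc0 : c ≠ 0 := by linarith
    field_simp
    norm_num
  have h8 : 4 * c ^ 2 *
      (c * (((non G (P k) z).card : ℝ) * (e1 p * a) * (2 * (a : ℝ) ^ (p + 1)))) =
      ((non G (P k) z).card : ℝ) * (a : ℝ) ^ (p + 2) * (8 * c ^ 3 * e1 p) := by ring
  rw [h8, h9]
  ring
theorem zsj_thm (hGCJ : GCJStmt) (hEXB : EXBStmt) (hTRV : TRVStmt) (_hBRK : BRKStmt) :
    ZSJStmt := by
  classical
  intro p w r hpr δ hδ
  obtain ⟨-, hφ0, hφ1, -, hg2, -⟩ := hGCJ p w r hpr
  obtain ⟨m, hm⟩ : ∃ m, p + 2 = m + w := ⟨p + 2 - w, by have := hpr.wp; omega⟩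
  have hc0 : 0 < c1 p w := by
    unfold c1
    have h1 : 0 < (p + 2).choose (w + 1) := Nat.choose_pos (by have := hpr.wp; omega)
    exact_mod_cast h1
  -- `c₁ ≤ choose (p + 1) w * (p + 3) / 2`
  have hch0 : (0 : ℝ) ≤ ((p + 1).choose w : ℝ) := Nat.cast_nonneg _
  have hcc : c1 p w ≤ ((p + 1).choose w : ℝ) * (((p : ℝ) + 3) / 2) := by
    have h1 := Nat.add_one_mul_choose_eq (p + 1) w
    have h2 : ((p : ℝ) + 1 + 1) * ((p + 1).choose w : ℝ) =
        ((p + 2).choose (w + 1) : ℝ) * ((w : ℝ) + 1) := by exact_mod_cast h1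
    have h3 : (1 : ℝ) ≤ w := by exact_mod_cast hpr.w1
    unfold c1
    have h4 : ((p + 2).choose (w + 1) : ℝ) * 2 ≤ ((p + 2).choose (w + 1) : ℝ) * ((w : ℝ) + 1) :=
      mul_le_mul_of_nonneg_left (by linarith) (Nat.cast_nonneg _)
    linarith
  set q : ℝ := (p : ℝ) + 2 with hq
  have hq0 : 0 < q := by
    rw [hq]
    positivity
  set R : ℝ := (2 * ((p : ℝ) + 3)) ^ (w + 1) with hR
  have hR0 : 0 < R := by
    rw [hR]
    positivity
  set D : ℝ := (m : ℝ) * R + 2 ^ (p + 3) * c1 p w with hD
  have hD0 : 0 < D := by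
    rw [hD]
    positivity
  refine ⟨min (1 / (64 * ((p : ℝ) + 3) ^ 2)) (δ / (2 * D)), lt_min (by positivity) (by positivity),
    min_le_left _ _, ?_⟩
  intro C hC
  set K : ℝ := ((p + 3).choose (w + 1) : ℝ) * C * 2 ^ (p + 1) with hK
  have hK0 : 0 ≤ K := by
    rw [hK]
    positivity
  obtain ⟨a₁, ha₁⟩ := exists_nat_ge (2 * K / δ)
  refine ⟨max 1 a₁, ?_⟩
  intro a ha V _ G e f C' W P U he0 he hf hS hCB z hz i hzi hzi'
  have ha1 : 1 ≤ a := le_trans (le_max_left _ _) ha
  have ha2 : a₁ ≤ a := le_trans (le_max_right _ _) ha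
  have haR : (0 : ℝ) < a := by exact_mod_cast ha1
  have he64 : e ≤ 1 / (64 * ((p : ℝ) + 3) ^ 2) := he.trans (min_le_left _ _)
  have heh : e ≤ 1 / 2 := by
    refine he64.trans ?_
    have hp0 : (0 : ℝ) ≤ p := Nat.cast_nonneg p
    rw [div_le_div_iff₀ (by positivity) (by norm_num)]
    nlinarith
  have heD : e ≤ δ / (2 * D) := he.trans (min_le_right _ _)
  have hKa : K ≤ δ / 2 * a := by
    have h1 : 2 * K / δ ≤ (a : ℝ) := ha₁.trans (by exact_mod_cast ha2)
    rw [div_le_iff₀ hδ] at h1
    linarith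
  have hDe : D * e ≤ δ / 2 := by
    have h1 : D * e ≤ D * (δ / (2 * D)) := mul_le_mul_of_nonneg_left heD hD0.le
    have h2 : D * (δ / (2 * D)) = δ / 2 := by
      field_simp
    linarith
  -- the sum of GCJ (2) over the transversals
  set J : (Fin (p + 3) → V) → ℝ :=
    fun g => ∑ k ∈ univ.erase i, (if g k ∈ non G (P k) z then (1 : ℝ) else 0) with hJ
  have hmom := zsj_moment G p a e f P he0 he64 hf ha1 hS.lo hS.hi hS.mis z i hzi J
    (fun g => rfl)
  have hJ0 : ∀ g, 0 ≤ J g := by
    intro g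
    rw [hJ]
    refine Finset.sum_nonneg fun k _ => ?_
    split_ifs <;> norm_num
  -- the number of neighbours
  have hBJ : ∀ g ∈ trv G P, (nb G (univ.image g) z).card ≤ p + 2 ∧
      ((nb G (univ.image g) z).card : ℝ) = q - J g := by
    intro g hg
    unfold trv at hg
    rw [mem_filter, Fintype.mem_piFinset] at hg
    obtain ⟨hgP, hgA⟩ := hg
    have hinj : Function.Injective g := by
      intro x y hxy
      by_contra hne
      have := hgA x y hne
      rw [hxy] at this
      exact G.loopless.irrefl _ this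
    have h1 : nb G (univ.image g) z = (univ.filter (fun k => G.Adj z (g k))).image g := by
      ext y
      rw [mem_nb]
      simp only [mem_image, mem_filter, mem_univ, true_and]
      constructor
      · rintro ⟨⟨k, rfl⟩, h⟩
        exact ⟨k, h, rfl⟩
      · rintro ⟨k, h, rfl⟩
        exact ⟨⟨k, rfl⟩, h⟩
    have h2 : (nb G (univ.image g) z).card = (univ.filter (fun k => G.Adj z (g k))).card := by
      rw [h1, Finset.card_image_of_injective _ hinj]
    have h3 : (univ.filter (fun k => G.Adj z (g k))) =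
        (univ.erase i).filter (fun k => G.Adj z (g k)) := by
      ext k
      simp only [mem_filter, mem_univ, true_and, mem_erase, and_true]
      constructor
      · intro h
        refine ⟨?_, h⟩
        rintro rfl
        exact hzi' _ (hgP k) h
      · exact fun h => h.2
    have h4 : J g = (((univ.erase i).filter (fun k => ¬ G.Adj z (g k))).card : ℝ) := by
      rw [hJ]
      simp only
      rw [← Finset.sum_filter, Finset.sum_const, nsmul_eq_mul, mul_one]
      congr 2
      ext k
      simp only [mem_filter, mem_erase, mem_univ, and_true]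
      unfold non
      rw [mem_filter]
      constructor
      · rintro ⟨h, h'⟩
        exact ⟨h, h'.2⟩
      · rintro ⟨h, h'⟩
        exact ⟨h, hgP k, h'⟩
    have h5 := Finset.card_filter_add_card_filter_not (s := univ.erase i)
      (fun k => G.Adj z (g k))
    rw [Finset.card_erase_of_mem (mem_univ i), Finset.card_univ, Fintype.card_fin] at h5
    have h6 : p + 3 - 1 = p + 2 := by omega
    rw [h6] at h5
    rw [h2, h3]
    refine ⟨by omega, ?_⟩
    rw [h4, hq]
    have h7 : (((univ.erase i).filter (fun k => G.Adj z (g k))).card : ℝ) +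
        (((univ.erase i).filter (fun k => ¬ G.Adj z (g k))).card : ℝ) = (p : ℝ) + 2 := by
      exact_mod_cast h5
    linarith
  have hsum : (∑ L ∈ clq G (un P) (p + 3), ((nb G L z).card.choose (w + 1) : ℝ)) + 0 * 0 ≤
      (kc G (un P) (p + 3) : ℝ) * (c1 p w * (1 - pt p w r)) +
        pt p w r * c1 p w * TZ G p r (un P) z := by
    have h2 : (kc G (un P) (p + 3) : ℝ) * (c1 p w * (1 - pt p w r)) =
        ∑ L ∈ clq G (un P) (p + 3), (c1 p w * (1 - pt p w r)) := by
      rw [Finset.sum_const, nsmul_eq_mul, kc_eq]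
    have h3 : pt p w r * c1 p w * TZ G p r (un P) z =
        ∑ L ∈ clq G (un P) (p + 3), pt p w r * c1 p w * ww p r (nb G L z).card := by
      unfold TZ
      rw [Finset.mul_sum]
    rw [mul_zero, add_zero, h2, h3, ← Finset.sum_add_distrib, ← sub_nonneg,
      ← Finset.sum_sub_distrib]
    rw [(hTRV G P hS.par).2 (fun L => c1 p w * (1 - pt p w r) +
      pt p w r * c1 p w * ww p r (nb G L z).card - ((nb G L z).card.choose (w + 1) : ℝ))]
    have h4 : ∀ g ∈ trv G P, 1 / 2 * ((p + 1).choose w : ℝ) * J g -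
        c1 p w * (J g * J g - J g) ≤
        c1 p w * (1 - pt p w r) + pt p w r * c1 p w * ww p r (nb G (univ.image g) z).card -
          ((nb G (univ.image g) z).card.choose (w + 1) : ℝ) := by
      intro g hg
      obtain ⟨h5, h6⟩ := hBJ g hg
      have h7 := hg2 _ h5
      refine le_trans (le_of_eq ?_) h7
      rw [h6, hq]
      ring
    have h8 := Finset.sum_le_sum h4
    rw [Finset.sum_sub_distrib, ← Finset.mul_sum, ← Finset.mul_sum] at h8
    refine le_trans ?_ h8
    -- the numbers
    have h10 : 0 ≤ ∑ g ∈ trv G P, J g := Finset.sum_nonneg fun g _ => hJ0 g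
    have h11 : c1 p w * ∑ g ∈ trv G P, (J g * J g - J g) ≤
        1 / 2 * ((p + 1).choose w : ℝ) * ∑ g ∈ trv G P, J g := by
      rcases le_or_gt 0 (∑ g ∈ trv G P, (J g * J g - J g)) with h12 | h12
      · have h13 := mul_le_mul_of_nonneg_right hcc h12
        have h14 : (1 : ℝ) ≤ (p : ℝ) + 3 := by
          have : (0 : ℝ) ≤ p := Nat.cast_nonneg p
          linarith
        have h15 : ((p : ℝ) + 3) * ∑ g ∈ trv G P, (J g * J g - J g) ≤
            4 * ((p : ℝ) + 3) ^ 2 * ∑ g ∈ trv G P, (J g * J g - J g) := by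
          refine mul_le_mul_of_nonneg_right ?_ h12
          nlinarith
        have h16 := mul_le_mul_of_nonneg_left (h15.trans hmom) hch0
        have h17 : ((p + 1).choose w : ℝ) * (((p : ℝ) + 3) / 2) *
            ∑ g ∈ trv G P, (J g * J g - J g) = ((p + 1).choose w : ℝ) *
            (((p : ℝ) + 3) * ∑ g ∈ trv G P, (J g * J g - J g)) / 2 := by ring
        rw [h17] at h13
        linarith
      · have h13 : c1 p w * ∑ g ∈ trv G P, (J g * J g - J g) ≤ 0 :=
          mul_nonpos_of_nonneg_of_nonpos hc0.le h12.le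
        have h14 : 0 ≤ 1 / 2 * ((p + 1).choose w : ℝ) * ∑ g ∈ trv G P, J g := by positivity
        linarith
    linarith
  have hEx := hEXB G p a e P he0 heh hS.par (fun i => ⟨hS.lo i, hS.hi i⟩) z (w + 1)
    (by have := hpr.wp; omega)
  have h1e : 0 ≤ (1 - e) * (a : ℝ) := mul_nonneg (by linarith) haR.le
  have hEx2 : ((1 - e) * (a : ℝ)) ^ m * (kc G (nb G (un P) z) (w + 1) : ℝ) ≤
      (∑ L ∈ clq G (un P) (p + 3), ((nb G L z).card.choose (w + 1) : ℝ)) +
        K * (a : ℝ) ^ (p + 2) := by
    have h2 : p + 3 - (w + 1) = m := by omega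
    rw [h2] at hEx
    have h3 : ((p + 3).choose (w + 1) : ℝ) * (tot G P * (2 * (a : ℝ)) ^ (p + 1)) ≤
        K * (a : ℝ) ^ (p + 2) := by
      have h4 : (tot G P : ℝ) * (2 * (a : ℝ)) ^ (p + 1) ≤ C * a * (2 * (a : ℝ)) ^ (p + 1) :=
        mul_le_mul_of_nonneg_right hS.tot (by positivity)
      have h5 : ((p + 3).choose (w + 1) : ℝ) * ((tot G P : ℝ) * (2 * (a : ℝ)) ^ (p + 1)) ≤
          ((p + 3).choose (w + 1) : ℝ) * (C * a * (2 * (a : ℝ)) ^ (p + 1)) :=
        mul_le_mul_of_nonneg_left h4 (by positivity)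
      refine h5.trans (le_of_eq ?_)
      rw [hK, mul_pow]
      ring
    linarith
  -- sizes
  have hprod : (kc G (un P) (p + 3) : ℝ) ≤ ((1 + e) * (a : ℝ)) ^ (p + 3) := by
    have h1 := (hTRV G P hS.par).1
    have h2 : (trv G P).card ≤ ∏ i, (P i).card := by
      classical
      rw [← Fintype.card_piFinset]
      unfold trv
      exact Finset.card_filter_le _ _
    have h3 : (kc G (un P) (p + 3) : ℝ) ≤ ∏ i, ((P i).card : ℝ) := by
      rw [h1]
      exact_mod_cast h2
    refine h3.trans ?_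
    calc ∏ i, ((P i).card : ℝ) ≤ ∏ _i : Fin (p + 3), ((1 + e) * (a : ℝ)) :=
          Finset.prod_le_prod (fun i _ => Nat.cast_nonneg _) (fun i _ => hS.hi i)
      _ = ((1 + e) * (a : ℝ)) ^ (p + 3) := by
          rw [Finset.prod_const, Finset.card_univ, Fintype.card_fin]
  have hcard : ((nb G (un P) z).card : ℝ) ≤ (2 * ((p : ℝ) + 3)) * (a : ℝ) := by
    have h1 : (nb G (un P) z).card ≤ ∑ i, (P i).card :=
      (Finset.card_le_card (nb_subset G (un P) z)).trans (by
        unfold un
        exact Finset.card_biUnion_le)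
    have h2 : ((nb G (un P) z).card : ℝ) ≤ ∑ i, ((P i).card : ℝ) := by exact_mod_cast h1
    refine h2.trans ?_
    calc ∑ i, ((P i).card : ℝ) ≤ ∑ _i : Fin (p + 3), (2 * (a : ℝ)) :=
          Finset.sum_le_sum fun i _ => (hS.hi i).trans
            (mul_le_mul_of_nonneg_right (by linarith) haR.le)
      _ = (2 * ((p : ℝ) + 3)) * (a : ℝ) := by
          rw [Finset.sum_const, Finset.card_univ, Fintype.card_fin, nsmul_eq_mul]
          push_cast
          ring
  have hκ : (kc G (nb G (un P) z) (w + 1) : ℝ) ≤ R * (a : ℝ) ^ (w + 1) := by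
    have h1 : (kc G (nb G (un P) z) (w + 1) : ℝ) ≤ ((nb G (un P) z).card : ℝ) ^ (w + 1) := by
      exact_mod_cast ZST23.kc_le_pow G (nb G (un P) z) (w + 1)
    refine h1.trans ?_
    rw [hR, ← mul_pow]
    exact pow_le_pow_left₀ (Nat.cast_nonneg _) hcard _
  have hfin := ZST23.fin_calc (c1 p w) (pt p w r) e a (kc G (nb G (un P) z) (w + 1) : ℝ)
    (kc G (un P) (p + 3) : ℝ)
    (∑ L ∈ clq G (un P) (p + 3), ((nb G L z).card.choose (w + 1) : ℝ))
    (TZ G p r (un P) z) 0 K δ R 0 p m w hm
    hc0.le hφ0 hφ1 he0 heh haR (Nat.cast_nonneg _) hκ hprod hsum hEx2 hDe hKa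
  rw [mul_zero, zero_div, add_zero] at hfin
  unfold Mt
  exact hfin

end Pool.KC7
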